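import Pool.Agent.helper23.CS.Spec

set_option autoImplicit false

open Finset Filter Topology MeasureTheory

namespace CS

open CU

theorem DEC_mem {d : ℕ} (L : ℕ) (v x : ZSite d) :
    x ∈ zBox L v ↔ ∀ k, v k - L ≤ x k ∧ x k ≤ v k + L := by
  unfold zBox
  rw [Fintype.mem_piFinset]
  exact forall_congr' fun k => Finset.mem_Icc

theorem DEC_zev {d : ℕ} (i k : Fin d) : 0 ≤ (zev i : ZSite d) k ∧ (zev i : ZSite d) k ≤ 1 := by
  unfold zev
  by_cases h : k = i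
  · rw [h, Pi.single_eq_same]; exact ⟨zero_le_one, le_refl _⟩
  · rw [Pi.single_eq_of_ne h]; exact ⟨le_refl _, zero_le_one⟩

theorem DEC_box {d : ℕ} (n : ℕ) (x y : ZSite d) (i : Fin d) (hx : x ∈ zBox n (0 : ZSite d))
    (h : y = x + zev i ∨ x = y + zev i) : y ∈ zBox (n + 1) (0 : ZSite d) := by
  rw [DEC_mem] at hx ⊢
  intro k
  obtain ⟨h1, h2⟩ := hx k
  obtain ⟨h3, h4⟩ := DEC_zev i k
  push_cast
  rcases h with h | h
  · have h5 := congrFun h k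
    rw [Pi.add_apply] at h5
    rw [Pi.zero_apply] at h1 h2 ⊢
    omega
  · have h5 := congrFun h k
    rw [Pi.add_apply] at h5
    rw [Pi.zero_apply] at h1 h2 ⊢
    omega

theorem DEC_sub {d : ℕ} (n L : ℕ) (hL : n + 1 ≤ L) (y : ZSite d)
    (hy : y ∈ zBox (n + 1) (0 : ZSite d)) : zBox (L - (n + 1)) y ⊆ zBox L (0 : ZSite d) := by
  intro x hx
  rw [DEC_mem] at hx hy ⊢
  intro k
  obtain ⟨h1, h2⟩ := hx k
  obtain ⟨h3, h4⟩ := hy k
  rw [Pi.zero_apply] at h3 h4 ⊢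
  rw [Nat.cast_sub hL] at h1 h2
  omega

theorem DEC_mono {d : ℕ} (n L : ℕ) (hL : n ≤ L) : zBox n (0 : ZSite d) ⊆ zBox L (0 : ZSite d) := by
  intro x hx
  rw [DEC_mem] at hx ⊢
  intro k
  obtain ⟨h1, h2⟩ := hx k
  rw [Pi.zero_apply] at h1 h2 ⊢
  omega

theorem DEC (hSL : SL_stmt) (hRCO : RCO_stmt) (hGC : GC_stmt) (hTR2 : TR2_stmt)
    (hVC : CU.VC_stmt) (hVD : CU.VD_stmt) : DEC_stmt := by
  intro d β n S hβ h0 hS hψ L hL
  set Λ : Finset (ZSite d) := zBox L (0 : ZSite d) with hΛ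
  have hSΛ : S ⊆ Λ := hS.trans (DEC_mono n L (by omega))
  set M : ℝ := ML d β (L - (n + 1)) with hM
  set f : ZSite d → ℝ := fun y => cor (zG Λ) β univ (cl Λ y) none with hf
  have hM0 : 0 ≤ M := by
    rw [hM]
    unfold ML
    rw [hGC]
    exact ((hRCO _ _ _ _ _ hβ).2.2.2 _ _).1
  have hfM : ∀ y ∈ zBox (n + 1) (0 : ZSite d), f y ≤ M := by
    intro y hy
    have h1 := hGC d β Λ y
    have h2 := hVC d β hβ _ _ (DEC_sub n L hL y hy) y
    rw [hVD d β (L - (n + 1)) y] at h2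
    show cor (zG Λ) β univ (cl Λ y) none ≤ M
    rw [← h1]
    exact h2
  have hcz : ∀ x, 0 ≤ cz β S x := fun x => ((hRCO _ _ _ _ _ hβ).2.2.2 _ _).1
  have ha : cl Λ (0 : ZSite d) ∈ S.image (cl Λ) := Finset.mem_image_of_mem _ h0
  have hz : (none : Option {x // x ∈ Λ}) ∉ S.image (cl Λ) := by
    intro h
    obtain ⟨y, hy, hy'⟩ := Finset.mem_image.1 h
    unfold cl at hy'
    rw [dif_pos (hSΛ hy)] at hy'
    exact Option.some_ne_none _ hy'
  have hsl := hSL (Option {x // x ∈ Λ}) {e // e ∈ tE Λ} (zG Λ) β univ (S.image (cl Λ)) (cl Λ 0) none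
    hβ ha hz
  obtain ⟨h1, h2⟩ := hTR2 d β Λ S hSΛ h0 f
  have h3 : (∑ e ∈ oS (zG Λ) univ (S.image (cl Λ)),
        cor (zG Λ) β (ins (zG Λ) univ (S.image (cl Λ))) (cl Λ 0) ((zG Λ).s e) *
          cor (zG Λ) β univ ((zG Λ).t e) none) =
      ∑ e ∈ (tE S).filter fun e => e.1 ∈ S ∧ e.1 + zev e.2 ∉ S, cz β S e.1 * f (e.1 + zev e.2) := h1
  have h4 : (∑ e ∈ oT (zG Λ) univ (S.image (cl Λ)),
        cor (zG Λ) β (ins (zG Λ) univ (S.image (cl Λ))) (cl Λ 0) ((zG Λ).t e) *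
          cor (zG Λ) β univ ((zG Λ).s e) none) =
      ∑ e ∈ (tE S).filter fun e => e.1 + zev e.2 ∈ S ∧ e.1 ∉ S, cz β S (e.1 + zev e.2) * f e.1 := h2
  rw [h3, h4] at hsl
  have h5 : (∑ e ∈ (tE S).filter fun e => e.1 ∈ S ∧ e.1 + zev e.2 ∉ S, cz β S e.1 * f (e.1 + zev e.2))
      ≤ (∑ e ∈ (tE S).filter fun e => e.1 ∈ S ∧ e.1 + zev e.2 ∉ S, cz β S e.1) * M := by
    rw [Finset.sum_mul]
    apply Finset.sum_le_sum
    intro e he
    rw [Finset.mem_filter] at he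
    exact mul_le_mul_of_nonneg_left
      (hfM _ (DEC_box n e.1 (e.1 + zev e.2) e.2 (hS he.2.1) (Or.inl rfl))) (hcz _)
  have h6 : (∑ e ∈ (tE S).filter fun e => e.1 + zev e.2 ∈ S ∧ e.1 ∉ S, cz β S (e.1 + zev e.2) * f e.1)
      ≤ (∑ e ∈ (tE S).filter fun e => e.1 + zev e.2 ∈ S ∧ e.1 ∉ S, cz β S (e.1 + zev e.2)) * M := by
    rw [Finset.sum_mul]
    apply Finset.sum_le_sum
    intro e he
    rw [Finset.mem_filter] at he
    exact mul_le_mul_of_nonneg_left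
      (hfM _ (DEC_box n (e.1 + zev e.2) e.1 e.2 (hS he.2.1) (Or.inr rfl))) (hcz _)
  have htanh : 0 ≤ Real.tanh β := by
    rw [Real.tanh_eq_sinh_div_cosh]
    exact div_nonneg (Real.sinh_nonneg_iff.2 hβ) (Real.cosh_pos β).le
  have h7 : ML d β L = cor (zG Λ) β univ (cl Λ 0) none := hGC d β Λ 0
  rw [h7]
  calc cor (zG Λ) β univ (cl Λ 0) none ≤ _ := hsl
    _ ≤ Real.tanh β * (psz β S * M) := by
      apply mul_le_mul_of_nonneg_left _ htanh
      unfold psz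
      rw [add_mul]
      exact add_le_add h5 h6
    _ = Real.tanh β * psz β S * M := by ring
    _ ≤ 1 / 2 * M := mul_le_mul_of_nonneg_right hψ hM0

end CS
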