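import Pool.Agent.helper23.CS.Spec

set_option autoImplicit false

open Finset

namespace CS

theorem RCO_FS {V ι : Type} [Fintype V] [DecidableEq V] [DecidableEq ι] (G : MG V ι) (b : ℝ)
    (E : Finset ι) (f : (V → Bool) → ℝ) :
    FS G b E (fun ω => KK G ω f / KN G ω) = ∑ ω ∈ E.powerset,
      (1 - Real.exp (-2 * b)) ^ ω.card * Real.exp (-2 * b) ^ (E \ ω).card * KK G ω f := by
  unfold FS wf
  refine Finset.sum_congr rfl fun ω _ => ?_
  have h := (KN_pos G ω).ne'
  field_simp

theorem RCO_Zf (hREX : REX_stmt) {V ι : Type} [Fintype V] [DecidableEq V] [DecidableEq ι]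
    (G : MG V ι) (b : ℝ) (E : Finset ι) (f : (V → Bool) → ℝ) :
    Zf G b E f = Real.exp (b * E.card) * FS G b E (fun ω => KK G ω f / KN G ω) := by
  rw [hREX, RCO_FS]

theorem RCO_one {V ι : Type} [Fintype V] [DecidableEq V] [DecidableEq ι]
    (G : MG V ι) (b : ℝ) (E : Finset ι) :
    FS G b E (fun ω => KK G ω (fun _ => 1) / KN G ω) = FS G b E (fun _ => 1) := by
  unfold FS
  refine Finset.sum_congr rfl fun ω _ => ?_
  have h := (KN_pos G ω).ne'
  show _ * (KN G ω / KN G ω) = _
  rw [div_self h]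

theorem RCO (hREX : REX_stmt) : RCO_stmt := by
  intro V ι _ _ _ G b E hb
  have hexp : 0 < Real.exp (b * E.card) := Real.exp_pos _
  have h1 : 0 < FS G b E (fun _ => 1) := by
    have h2 := Zf_pos G b E
    rw [RCO_Zf hREX, RCO_one] at h2
    exact (pos_iff_pos_of_mul_pos h2).1 hexp
  have h2 : ∀ f : (V → Bool) → ℝ,
      mf G b E f = FS G b E (fun ω => KK G ω f / KN G ω) / FS G b E fun _ => 1 := by
    intro f
    unfold mf
    rw [RCO_Zf hREX G b E f, RCO_Zf hREX G b E (fun _ => 1), RCO_one,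
      mul_div_mul_left _ _ hexp.ne']
  have h3 : ∀ x y : V, cor G b E x y = FS G b E (fun ω => ind (Conn G ω x y)) / FS G b E fun _ => 1 := by
    intro x y
    unfold cor
    rw [h2]
    congr 1
    unfold FS
    refine Finset.sum_congr rfl fun ω _ => ?_
    show wf G b E ω * (KK G ω (fun σ => CU.sg (σ x) * CU.sg (σ y)) / KN G ω)
      = wf G b E ω * ind (Conn G ω x y)
    rw [KK_two, mul_div_assoc, div_self (KN_pos G ω).ne', mul_one]
  have hw : ∀ ω ∈ E.powerset, 0 ≤ wf G b E ω := by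
    intro ω _
    unfold wf
    have h4 : 0 ≤ 1 - Real.exp (-2 * b) := by
      have : Real.exp (-2 * b) ≤ 1 := Real.exp_le_one_iff.2 (by linarith)
      linarith
    exact mul_nonneg (mul_nonneg (pow_nonneg h4 _) (pow_nonneg (Real.exp_pos _).le _)) (KN_pos G ω).le
  refine ⟨h1, h2, h3, fun x y => ?_⟩
  rw [h3]
  constructor
  · apply div_nonneg _ h1.le
    unfold FS
    exact Finset.sum_nonneg fun ω hω => mul_nonneg (hw ω hω) (ind_nonneg _)
  · rw [div_le_one h1]
    unfold FS
    exact Finset.sum_le_sum fun ω hω => mul_le_mul_of_nonneg_left (ind_le_one _) (hw ω hω)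

end CS
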